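import Pool.Agent.Helper95.FT.StripB

/-!
# Packet FT-STRIP: uniform strips
-/

set_option autoImplicit false

namespace Pool.Agent.Helper95.FT

open Pool.Agent.Helper76.FT Complex Set Filter Topology Metric

lemma fract_of {x : ℝ} (n : ℤ) (h1 : (n:ℝ) ≤ x) (h2 : x < n + 1) : Int.fract x = x - n := by
  have := Int.floor_eq_iff.2 ⟨h1, h2⟩
  rw [Int.fract, this]

lemma fract_mem (x : ℝ) : Int.fract x ∈ Icc (0:ℝ) 1 :=
  ⟨Int.fract_nonneg x, (Int.fract_lt_one x).le⟩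

lemma real_mem_Str {ρ : ℝ} (hρ : 0 < ρ) (x : ℝ) : ((x : ℝ) : ℂ) ∈ Str ρ := by
  change |((x : ℝ) : ℂ).im| < ρ
  rw [Complex.ofReal_im, abs_zero]
  exact hρ

section facts

variable {S : Sys} {δ ρ : ℝ} {w : ℂ → ℝ → ℂ} {c : ℂ}

lemma nb_gen (hReg : GReg) (hS : S.Ok) (hT : Tor S δ w ρ c) (hδ : δ < S.r) (z : ℝ × ℝ) {s : ℝ}
    (hs : s ∈ Icc (0:ℝ) 1) :
    ((z.1 : ℂ) + ((s : ℂ) - (Int.fract z.2 : ℝ)) * wt w z, wt w z) ∈ S.Nb s S.r := by
  obtain ⟨-, -, -, -, -, -, -, -, h9, -⟩ := hReg S hS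
  have hf := fract_mem z.2
  have hp := hT.pos z.1 _ hf
  refine h9 (Int.fract z.2) hf s hs z.1 (wt w z) (hT.reg z.1 _ hf) ?_
  have : |(wt w z).im| = (wt w z).im := abs_of_pos hp.1
  rw [this]
  exact lt_of_le_of_lt hp.2 hδ

lemma nb_neg (hReg : GReg) (hS : S.Ok) (hT : Tor S δ w ρ c) (hδ : δ < S.r) (z : ℝ × ℝ)
    (h1 : -1 ≤ z.2) (h2 : z.2 < 0) :
    ((z.1 : ℂ) - z.2 * wt w z, wt w z) ∈ S.Nb 1 S.r := by
  have h := nb_gen hReg hS hT hδ z (s := 1) ⟨zero_le_one, le_rfl⟩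
  have hf : Int.fract z.2 = z.2 + 1 := by
    rw [fract_of (-1) (by push_cast; exact h1) (by push_cast; linarith)]
    push_cast
    ring
  rw [hf] at h
  convert h using 2
  push_cast
  ring

lemma nb_mid (hReg : GReg) (hS : S.Ok) (hT : Tor S δ w ρ c) (hδ : δ < S.r) (z : ℝ × ℝ)
    (h1 : 0 ≤ z.2) (h2 : z.2 < 1) {s : ℝ} (hs : s ∈ Icc (0:ℝ) 1) :
    ((z.1 : ℂ) + (s - z.2) * wt w z, wt w z) ∈ S.Nb s S.r := by
  have h := nb_gen hReg hS hT hδ z hs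
  have hf : Int.fract z.2 = z.2 := by
    rw [fract_of 0 (by push_cast; exact h1) (by push_cast; linarith)]
    push_cast
    ring
  rw [hf] at h
  exact h

lemma nb_pos (hReg : GReg) (hS : S.Ok) (hT : Tor S δ w ρ c) (hδ : δ < S.r) (z : ℝ × ℝ)
    (h1 : 1 ≤ z.2) (h2 : z.2 < 2) :
    ((z.1 : ℂ) + (1 - z.2) * wt w z, wt w z) ∈ S.Nb 0 S.r := by
  have h := nb_gen hReg hS hT hδ z (s := 0) ⟨le_rfl, zero_le_one⟩
  have hf : Int.fract z.2 = z.2 - 1 := by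
    rw [fract_of 1 (by push_cast; exact h1) (by push_cast; linarith)]
    push_cast
    ring
  rw [hf] at h
  convert h using 2
  push_cast
  ring

lemma wt_per (hT : Tor S δ w ρ c) (z : ℝ × ℝ) : wt w (z.1 + 1, z.2) = wt w z := by
  unfold wt
  have := hT.sh.per (z.1 : ℂ) (real_mem_Str hT.hρ _) (Int.fract z.2) (fract_mem _)
  push_cast
  exact this

lemma omf_per (hReg : GReg) (hS : S.Ok) (hT : Tor S δ w ρ c) (hδ : δ < S.r) (z : ℝ × ℝ)
    (h1 : -1 ≤ z.2) (h2 : z.2 < 2) : OmF S w (z.1 + 1, z.2) = OmF S w z := by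
  unfold OmF
  rw [wt_per hT z]
  simp only
  split_ifs with g1 g2
  · have := hS.Kper _ (nb_neg hReg hS hT hδ z h1 g1)
    simp only at this
    rw [← this]
    congr 1
    push_cast
    ring
  · rfl
  · have := hS.Kiper _ (nb_pos hReg hS hT hδ z (not_lt.1 g2) h2)
    simp only at this
    rw [← this]
    congr 1
    push_cast
    ring

lemma xf_per (hReg : GReg) (hS : S.Ok) (hT : Tor S δ w ρ c) (hδ : δ < S.r) (t : ℝ) (z : ℝ × ℝ)
    (h1 : -1 ≤ z.2) (h2 : z.2 < 2) : XF S w t (z.1 + 1, z.2) = XF S w t z + 1 := by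
  unfold XF
  rw [omf_per hReg hS hT hδ z h1 h2, wt_per hT z]
  simp only
  split_ifs <;> (push_cast; ring)

lemma omf_real (hS : S.Ok) (hT : Tor S δ w ρ c) {t : ℝ} (ht : t ∈ Icc (0:ℝ) 1) (x : ℝ) :
    OmF S w (x, t) = w (x : ℂ) t := by
  unfold OmF
  simp only
  rw [if_neg (not_lt.2 ht.1)]
  split_ifs with h1
  · unfold wt
    simp only
    rw [fract_of 0 (by push_cast; exact ht.1) (by push_cast; linarith)]
    simp
  · have : t = 1 := le_antisymm ht.2 (not_lt.1 h1)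
    subst this
    have hw : wt w ((x, 1) : ℝ × ℝ) = w (x : ℂ) 0 := by
      unfold wt
      simp
    rw [hw, hT.kick _ (real_mem_Str hT.hρ x)]
    have := hS.KiK _ (hT.nb _ (real_mem_Str hT.hρ x) 1 ⟨zero_le_one, le_rfl⟩)
    simp only at this
    have e : (x : ℂ) + (1 - ((1:ℝ):ℂ)) * S.K (x : ℂ) (w (x : ℂ) 1) = (x : ℂ) := by
      push_cast
      ring
    rw [e]
    exact this

/-- crossing the kick -/
lemma kick_pt (hReg : GReg) (hS : S.Ok) (hT : Tor S δ w ρ c) (hδ : δ < S.r) (z : ℝ × ℝ)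
    (h1 : 0 ≤ z.2) (h2 : z.2 < 2) :
    XF S w 0 (z.1, z.2 - 1) = XF S w 1 z ∧
      OmF S w (z.1, z.2 - 1) = S.K (XF S w 1 z) (OmF S w z) := by
  have hw : wt w (z.1, z.2 - 1) = wt w z := by
    unfold wt
    simp only
    rw [Int.fract_sub_one]
  unfold XF OmF
  rw [hw]
  simp only
  by_cases g : z.2 < 1
  · rw [if_pos (show z.2 - 1 < 0 by linarith), if_pos (show z.2 - 1 < 0 by linarith),
      if_neg (not_lt.2 h1), if_pos g, if_neg (not_lt.2 h1), if_pos g]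
    refine ⟨?_, ?_⟩
    · push_cast
      ring
    · congr 1
      push_cast
      ring
  · have g' := not_lt.1 g
    rw [if_neg (show ¬ z.2 - 1 < 0 by linarith), if_pos (show z.2 - 1 < 1 by linarith),
      if_neg (show ¬ z.2 - 1 < 0 by linarith), if_pos (show z.2 - 1 < 1 by linarith),
      if_neg (not_lt.2 h1), if_neg g, if_neg (not_lt.2 h1), if_neg g]
    refine ⟨?_, ?_⟩
    · push_cast
      ring
    · have := hS.KKi _ (nb_pos hReg hS hT hδ z g' h2)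
      simp only at this
      have e : (z.1 : ℂ) + (1 - z.2) * wt w z + (((1:ℝ):ℂ) - 1) *
          S.Ki ((z.1 : ℂ) + (1 - z.2) * wt w z) (wt w z) = (z.1 : ℂ) + (1 - z.2) * wt w z := by
        push_cast
        ring
      rw [e]
      exact this.symm

end facts

section env

variable {S : Sys} {w : ℂ → ℝ → ℂ} {h A R c₀ C₀ a₂ : ℝ}

lemma Env.wt_bd (E : Env S w h A R c₀ C₀ a₂) (z : ℝ × ℝ) : ‖wt w z‖ ≤ C₀ := by
  have h1 := E.obd (z.1, Int.fract z.2)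
    (by have := Int.fract_nonneg z.2; simp only; linarith)
    (by have := Int.fract_lt_one z.2; simp only; linarith)
  unfold OmF at h1
  simp only at h1
  rw [if_neg (not_lt.2 (Int.fract_nonneg z.2)), if_pos (Int.fract_lt_one z.2)] at h1
  unfold wt at h1 ⊢
  simp only [Int.fract_fract] at h1
  exact h1

lemma Env.Wn_cont (E : Env S w h A R c₀ C₀ a₂) :
    ContinuousOn (fun q : ℂ × ℝ => Wn S w q.1 q.2) (Str R ×ˢ Icc (0:ℝ) 1) := by
  rintro ⟨ζ, t⟩ ⟨hζ, ht⟩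
  have hA := E.A0
  have hL : 0 < a₂ ^ 2 * h ^ 3 := by
    have := E.a20
    have := E.h0
    positivity
  rw [ContinuousWithinAt, tendsto_iff_norm_sub_tendsto_zero]
  have h1 : Tendsto (fun q : ℂ × ℝ => (‖q.1 - ζ‖ + C₀ * |q.2 - t|) / (a₂ ^ 2 * h ^ 3))
      (𝓝[Str R ×ˢ Icc (0:ℝ) 1] (ζ, t)) (𝓝 0) := by
    have : Continuous (fun q : ℂ × ℝ => (‖q.1 - ζ‖ + C₀ * |q.2 - t|) / (a₂ ^ 2 * h ^ 3)) := by
      fun_prop
    have h2 := (this.tendsto (ζ, t)).mono_left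
      (nhdsWithin_le_nhds (s := Str R ×ˢ Icc (0:ℝ) 1))
    simpa using h2
  refine squeeze_zero' (Eventually.of_forall fun _ => norm_nonneg _) ?_ h1
  have e1 : ∀ᶠ q : ℂ × ℝ in 𝓝[Str R ×ˢ Icc (0:ℝ) 1] (ζ, t), ‖q.1 - ζ‖ < A / 2 := by
    have : Continuous (fun q : ℂ × ℝ => ‖q.1 - ζ‖) := by fun_prop
    have h2 := (this.tendsto (ζ, t)).mono_left (nhdsWithin_le_nhds (s := Str R ×ˢ Icc (0:ℝ) 1))
    simp only [sub_self, norm_zero] at h2
    exact h2.eventually (gt_mem_nhds (by linarith))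
  have e2 : ∀ᶠ q : ℂ × ℝ in 𝓝[Str R ×ˢ Icc (0:ℝ) 1] (ζ, t), |q.2 - t| < A / 2 := by
    have : Continuous (fun q : ℂ × ℝ => |q.2 - t|) := by fun_prop
    have h2 := (this.tendsto (ζ, t)).mono_left (nhdsWithin_le_nhds (s := Str R ×ˢ Icc (0:ℝ) 1))
    simp only [sub_self, abs_zero] at h2
    exact h2.eventually (gt_mem_nhds (by linarith))
  filter_upwards [e1, e2, self_mem_nhdsWithin] with q q1 q2 q3
  rw [le_div_iff₀ hL, mul_comm]
  have q4 : |ζ.re - q.1.re| ≤ A / 2 := by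
    have := Complex.abs_re_le_norm (q.1 - ζ)
    rw [Complex.sub_re, abs_sub_comm] at this
    linarith
  have q5 : |t - q.2| ≤ A / 2 := by
    rw [abs_sub_comm]
    exact q2.le
  exact E.Wn_lip q3.2 ht q3.1 hζ q4 q5

lemma Env.Wn_hol (E : Env S w h A R c₀ C₀ a₂) {t : ℝ} (ht : t ∈ Icc (0:ℝ) 1)
    (hmap : ∀ z₁ : ℝ × ℝ, Filter.map (chi w z₁) (𝓝 z₁) = 𝓝 0)
    (hTO : ∀ z₁ : ℝ × ℝ, -1 < z₁.2 → z₁.2 < 2 → TH w (OmF S w) z₁)
    (hTX : ∀ z₁ : ℝ × ℝ, -1 < z₁.2 → z₁.2 < 2 → TH w (XF S w t) z₁) :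
    DifferentiableOn ℂ (fun ζ => Wn S w ζ t) (Str R) := by
  intro ζ₀ hζ₀
  have hA := E.A0
  have hζ : |ζ₀.im| < R := hζ₀
  set z₀ := zs S w ζ₀ t with hz₀
  have H := E.zs_spec ht hζ
  have n := E.zs_near ht hζ
  rw [← hz₀] at H n
  obtain ⟨hX, hXa, hXe⟩ := hTX z₀ H.1 H.2.1
  obtain ⟨hO, hOa, hOe⟩ := hTO z₀ H.1 H.2.1
  have chi0 : chi w z₀ z₀ = 0 := by
    unfold chi
    simp
  have hX0 : hX 0 = ζ₀ := by
    have := hXe.self_of_nhds
    rw [chi0, H.2.2] at this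
    exact this.symm
  have hC : 0 < 1 + C₀ := by linarith [E.C00]
  have hκ : 0 < a₂ * h / (1 + C₀) := div_pos (mul_pos E.a20 E.h0) hC
  refine (diff_of_param (hX := hX) (hO := hO) hκ hXa hOa hX0 ?_ ?_).differentiableWithinAt
  · rw [← hmap z₀, eventually_map]
    have e1 : ∀ᶠ z in 𝓝 z₀, dist z z₀ < A / 2 := Metric.ball_mem_nhds z₀ (by linarith)
    filter_upwards [hXe, e1] with z hz1 hz2
    rw [← hz1, hX0, ← H.2.2]
    rw [Prod.dist_eq, max_lt_iff, Real.dist_eq, Real.dist_eq] at hz2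
    have q1 : |z.1 - ζ₀.re| ≤ A := by
      have := abs_sub_le z.1 z₀.1 ζ₀.re
      linarith [n.2, hz2.1]
    have q2 : |z.2 - t| ≤ A := by
      have := abs_sub_le z.2 z₀.2 t
      linarith [n.1, hz2.2]
    have L := (E.lip t ht ζ₀.re z z₀ q1 q2 (by linarith [n.2]) (by linarith [n.1])).1
    have hchi : ‖chi w z₀ z‖ ≤ (1 + C₀) * ‖z - z₀‖ := by
      unfold chi
      refine (norm_add_le _ _).trans ?_
      rw [norm_mul, Complex.norm_real, Complex.norm_real, Real.norm_eq_abs, Real.norm_eq_abs]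
      have f1 : |z.1 - z₀.1| ≤ ‖z - z₀‖ := by
        rw [Prod.norm_def]
        exact le_max_left _ _
      have f2 : |z₀.2 - z.2| ≤ ‖z - z₀‖ := by
        rw [Prod.norm_def, abs_sub_comm]
        exact le_max_right _ _
      have f3 := E.wt_bd z
      have f4 : |z₀.2 - z.2| * ‖wt w z‖ ≤ ‖z - z₀‖ * C₀ :=
        mul_le_mul f2 f3 (norm_nonneg _) (norm_nonneg _)
      linarith
    calc a₂ * h / (1 + C₀) * ‖chi w z₀ z‖ ≤ a₂ * h / (1 + C₀) * ((1 + C₀) * ‖z - z₀‖) :=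
          mul_le_mul_of_nonneg_left hchi hκ.le
      _ = a₂ * h * ‖z - z₀‖ := by field_simp
      _ ≤ _ := L
  · rw [← hmap z₀, eventually_map]
    have c1 : ContinuousAt (XF S w t) z₀ := E.cont t ht z₀ H.1 H.2.1
    have c2 : ∀ᶠ z in 𝓝 z₀, |(XF S w t z).im| < R := by
      have : Tendsto (fun z => |(XF S w t z).im|) (𝓝 z₀) (𝓝 |(XF S w t z₀).im|) := by
        have c3 : Continuous (fun u : ℂ => |u.im|) := by fun_prop
        exact (c3.tendsto _).comp c1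
      rw [H.2.2] at this
      exact this.eventually (gt_mem_nhds hζ)
    have c4 : ∀ᶠ z : ℝ × ℝ in 𝓝 z₀, -1 < z.2 :=
      (continuous_snd.tendsto z₀).eventually (lt_mem_nhds H.1)
    have c5 : ∀ᶠ z : ℝ × ℝ in 𝓝 z₀, z.2 < 2 :=
      (continuous_snd.tendsto z₀).eventually (gt_mem_nhds H.2.1)
    filter_upwards [hXe, hOe, c2, c4, c5] with z hz1 hz2 hz3 hz4 hz5
    rw [← hz1, ← hz2]
    exact E.Wn_eq ht hz4 hz5 hz3 rfl

end env

theorem ft_strip (hReg : GReg) (hChart : GChart) (hOM : GOM) (hSign : GSign) (hTHX : GTHX)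
    (hBi : GBiLip) : GStrip := by
  intro S hS
  obtain ⟨δ₁, c₀, C₀, hδ₁, hc₀, hC₀, hsgn⟩ := hSign S hS
  obtain ⟨δ₂, a₂, hδ₂, ha₂, ha₂', hbi⟩ := hBi S hS
  have hr := hS.hr
  obtain ⟨a, ha, l1, l2, l3, l4, l5⟩ : ∃ a : ℝ, 0 < a ∧ a ≤ c₀ * (a₂ / 4) ∧
      C₀ * a ≤ c₀ * (a₂ / 4) ∧ a ≤ a₂ / 4 ∧ a ≤ a₂ ^ 2 * (S.r / 4) ∧ a ≤ S.r / 2 := by
    refine ⟨min (c₀ * (a₂ / 4)) (min (c₀ * (a₂ / 4) / C₀) (min (a₂ / 4)
      (min (a₂ ^ 2 * (S.r / 4)) (S.r / 2)))), ?_, ?_, ?_, ?_, ?_, ?_⟩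
    · refine lt_min (by positivity) (lt_min (by positivity) (lt_min (by positivity)
        (lt_min (by positivity) (by positivity))))
    · exact min_le_left _ _
    · have : min (c₀ * (a₂ / 4)) (min (c₀ * (a₂ / 4) / C₀) (min (a₂ / 4)
        (min (a₂ ^ 2 * (S.r / 4)) (S.r / 2)))) ≤ c₀ * (a₂ / 4) / C₀ :=
        (min_le_right _ _).trans (min_le_left _ _)
      rw [le_div_iff₀ hC₀] at this
      linarith
    · exact (min_le_right _ _).trans ((min_le_right _ _).trans (min_le_left _ _))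
    · exact (min_le_right _ _).trans ((min_le_right _ _).trans ((min_le_right _ _).trans
        (min_le_left _ _)))
    · exact (min_le_right _ _).trans ((min_le_right _ _).trans ((min_le_right _ _).trans
        (min_le_right _ _)))
  refine ⟨min δ₁ (min δ₂ (S.r / 2)), a, 4, lt_min hδ₁ (lt_min hδ₂ (by linarith)), ha,
    by norm_num, ?_⟩
  intro δ ρ w c hδ hT h hh0 hh1 hlow
  have hd1 : δ ≤ δ₁ := hδ.trans (min_le_left _ _)
  have hd2 : δ ≤ δ₂ := hδ.trans ((min_le_right _ _).trans (min_le_left _ _))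
  have hd3 : δ ≤ S.r / 2 := hδ.trans ((min_le_right _ _).trans (min_le_right _ _))
  have hdr : δ < S.r := by linarith
  have hh3 : h ^ 3 ≤ 1 := pow_le_one₀ hh0.le hh1
  have hh4 : h ^ 4 ≤ h ^ 3 := pow_le_pow_of_le_one hh0.le hh1 (by norm_num)
  have hh3' : 0 < h ^ 3 := by positivity
  have hh4' : 0 < h ^ 4 := by positivity
  have hwt : ∀ z : ℝ × ℝ, h ≤ (wt w z).im := fun z => hlow z.1 _ (fract_mem z.2)
  have E : Env S w h (a₂ * h ^ 3) (a * h ^ 4) c₀ C₀ a₂ := by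
    refine ⟨hh0, hh1, by positivity, ?_, by positivity, hc₀, hC₀, ha₂, rfl, ?_, ?_, ?_,
      ?_, ?_, ?_, ?_, ?_, ?_⟩
    · nlinarith
    · calc a * h ^ 4 ≤ c₀ * (a₂ / 4) * h ^ 4 := mul_le_mul_of_nonneg_right l1 hh4'.le
        _ = c₀ * h * (a₂ * h ^ 3 / 4) := by ring
    · calc C₀ * (a * h ^ 4) = C₀ * a * h ^ 4 := by ring
        _ ≤ c₀ * (a₂ / 4) * h ^ 4 := mul_le_mul_of_nonneg_right l2 hh4'.le
        _ = c₀ * h * (a₂ * h ^ 3 / 4) := by ring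
    · calc a * h ^ 4 ≤ a₂ / 4 * h ^ 4 := mul_le_mul_of_nonneg_right l3 hh4'.le
        _ ≤ a₂ / 4 * h ^ 3 := mul_le_mul_of_nonneg_left hh4 (by positivity)
        _ = a₂ * h ^ 3 / 4 := by ring
    · intro t ht z h1 h2
      obtain ⟨s1, s2, -, -, -⟩ := hsgn δ ρ w c hd1 hT t ht z h1.le h2
      have hw := hwt z
      rcases le_total z.2 t with g | g
      · have s1' := s1 g
        have : |z.2 - t| = t - z.2 := by
          rw [abs_sub_comm, abs_of_nonneg (by linarith)]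
        rw [this]
        have k1 : c₀ * h * (t - z.2) ≤ c₀ * (t - z.2) * (wt w z).im := by
          have : 0 ≤ c₀ * (t - z.2) := mul_nonneg hc₀.le (by linarith)
          nlinarith
        exact (k1.trans s1').trans (le_abs_self _)
      · have s2' := s2 g
        have : |z.2 - t| = z.2 - t := abs_of_nonneg (by linarith)
        rw [this]
        have k1 : c₀ * h * (z.2 - t) ≤ c₀ * (z.2 - t) * (wt w z).im := by
          have : 0 ≤ c₀ * (z.2 - t) := mul_nonneg hc₀.le (by linarith)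
          nlinarith
        have k2 : -(XF S w t z).im ≤ |(XF S w t z).im| := neg_le_abs _
        linarith
    · intro t ht z h1 h2
      exact (hsgn δ ρ w c hd1 hT t ht z h1.le h2).2.2.2.2
    · intro z h1 h2
      exact (hsgn δ ρ w c hd1 hT 0 ⟨le_rfl, zero_le_one⟩ z h1.le h2).2.2.2.1
    · intro t ht x z z' g1 g2 g3 g4
      exact hbi δ ρ w c hd2 hT h hh0 hh1 hlow t ht x z z' g1 g2 g3 g4
    · intro t ht z h1 h2
      exact ((hOM S hS δ ρ w c hT z).1 _ (hTHX S hS δ ρ w c hdr hT t ht z h1 h2).2.1).2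
    · intro t ht z h1 h2
      exact ((hOM S hS δ ρ w c hT z).1 _ (hTHX S hS δ ρ w c hdr hT t ht z h1 h2).2.1).1
  have hreal : ∀ x : ℝ, ∀ t ∈ Icc (0:ℝ) 1, Wn S w (x : ℂ) t = w (x : ℂ) t := by
    intro x t ht
    rw [E.Wn_eq ht (z := (x, t)) (by simp only; linarith [ht.1]) (by simp only; linarith [ht.2])
      (by simp only [Complex.ofReal_im, abs_zero]; exact E.R0) (xf_real S w ht x)]
    exact omf_real hS hT ht x
  refine ⟨Wn S w, ?_, hreal⟩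
  refine ⟨E.R0, ⟨?_, ?_, ?_⟩, ?_, ?_, ?_, ?_, ?_, ?_⟩
  · -- holomorphy
    intro t ht
    exact E.Wn_hol ht (fun z₁ => (hChart S hS δ ρ w c hT z₁).1)
      (fun z₁ h1 h2 => (hTHX S hS δ ρ w c hdr hT t ht z₁ h1 h2).1)
      (fun z₁ h1 h2 => (hTHX S hS δ ρ w c hdr hT t ht z₁ h1 h2).2.1)
  · exact E.Wn_cont
  · -- periodicity
    intro ζ hζ t ht
    have hζ' : |(ζ + 1).im| < a * h ^ 4 := by
      have h1 : (ζ + 1).im = ζ.im := by simp
      rw [h1]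
      exact hζ
    have H := E.zs_spec ht hζ
    rw [E.Wn_eq ht (z := ((zs S w ζ t).1 + 1, (zs S w ζ t).2)) H.1 H.2.1 hζ'
      (by rw [xf_per hReg hS hT hdr t _ H.1.le H.2.1, H.2.2])]
    exact omf_per hReg hS hT hdr _ H.1.le H.2.1
  · -- neighbourhoods
    intro ζ hζ t ht
    have hζ' : |ζ.im| < a * h ^ 4 := hζ
    have hx0 : |((ζ.re : ℝ) : ℂ).im| < a * h ^ 4 := by
      rw [Complex.ofReal_im, abs_zero]
      exact E.R0
    have hL := E.Wn_lip ht ht hζ' hx0 (by simp; linarith [E.A0]) (by simp; linarith [E.A0])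
    rw [sub_self, abs_zero, mul_zero, add_zero, hreal ζ.re t ht] at hL
    have hdist : ‖ζ - ((ζ.re : ℝ) : ℂ)‖ < a * h ^ 4 := by
      have : ζ - ((ζ.re : ℝ) : ℂ) = (ζ.im : ℂ) * I := by
        apply Complex.ext <;> simp
      rw [this, norm_mul, Complex.norm_I, mul_one, Complex.norm_real, Real.norm_eq_abs]
      exact hζ'
    refine ⟨(ζ.re, (w ((ζ.re : ℝ) : ℂ) t).re), hT.reg _ t ht, ?_, ?_⟩
    · refine hdist.trans_le ?_
      calc a * h ^ 4 ≤ a * 1 := mul_le_mul_of_nonneg_left (hh4.trans hh3) ha.le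
        _ ≤ S.r := by linarith
    · have k1 : ‖Wn S w ζ t - w ((ζ.re : ℝ) : ℂ) t‖ ≤ S.r / 4 := by
        have k2 : a₂ ^ 2 * h ^ 3 * ‖Wn S w ζ t - w ((ζ.re : ℝ) : ℂ) t‖
            ≤ a₂ ^ 2 * h ^ 3 * (S.r / 4) := by
          calc _ ≤ ‖ζ - ((ζ.re : ℝ) : ℂ)‖ := hL
            _ ≤ a * h ^ 4 := hdist.le
            _ ≤ a * h ^ 3 := mul_le_mul_of_nonneg_left hh4 ha.le
            _ ≤ a₂ ^ 2 * (S.r / 4) * h ^ 3 := mul_le_mul_of_nonneg_right l4 hh3'.le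
            _ = _ := by ring
        exact le_of_mul_le_mul_left k2 (by positivity)
      have hp := hT.pos ζ.re t ht
      have k3 : ‖w ((ζ.re : ℝ) : ℂ) t - (((w ((ζ.re : ℝ) : ℂ) t).re : ℝ) : ℂ)‖ ≤ δ := by
        have : w ((ζ.re : ℝ) : ℂ) t - (((w ((ζ.re : ℝ) : ℂ) t).re : ℝ) : ℂ)
            = ((w ((ζ.re : ℝ) : ℂ) t).im : ℂ) * I := by
          apply Complex.ext <;> simp
        rw [this, norm_mul, Complex.norm_I, mul_one, Complex.norm_real, Real.norm_eq_abs,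
          abs_of_pos hp.1]
        exact hp.2
      have k4 := norm_sub_le_norm_sub_add_norm_sub (Wn S w ζ t) (w ((ζ.re : ℝ) : ℂ) t)
        (((w ((ζ.re : ℝ) : ℂ) t).re : ℝ) : ℂ)
      simp only
      linarith
  · -- lines
    intro ζ hζ s hs t ht hζ2
    have H := E.zs_spec ht hζ
    have e : Wn S w ζ t = OmF S w (zs S w ζ t) := rfl
    rw [e] at hζ2 ⊢
    refine E.Wn_eq hs H.1 H.2.1 hζ2 ?_
    rw [xf_line S w s t, H.2.2]
  · -- kick
    intro ζ hζ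
    have h1 : (1:ℝ) ∈ Icc (0:ℝ) 1 := ⟨zero_le_one, le_rfl⟩
    have h0 : (0:ℝ) ∈ Icc (0:ℝ) 1 := ⟨le_rfl, zero_le_one⟩
    have H := E.zs_spec h1 hζ
    have n := (abs_lt.1 (E.zs_near h1 hζ).1)
    have hA := E.A1
    have g1 : 0 ≤ (zs S w ζ 1).2 := by linarith [n.1]
    have K := kick_pt hReg hS hT hdr (zs S w ζ 1) g1 H.2.1
    rw [E.Wn_eq h0 (z := ((zs S w ζ 1).1, (zs S w ζ 1).2 - 1))
      (by simp only; linarith) (by simp only; linarith [H.2.1]) hζ (by rw [K.1, H.2.2]),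
      K.2, H.2.2]
    rfl
  · intro x t ht
    rw [hreal x t ht]
    exact hT.pos x t ht
  · intro x t ht
    rw [hreal x t ht]
    exact hT.reg x t ht
  · rw [← hT.mean]
    refine intervalIntegral.integral_congr ?_
    intro x _
    simp only
    rw [hreal x 0 ⟨le_rfl, zero_le_one⟩]

end Pool.Agent.Helper95.FT
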