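import Mathlib

/-!
# Auxiliary lemmas for the packet FT-STRIP (no reference to the system)
-/

set_option autoImplicit false

namespace Pool.Agent.Helper95.FT

open Complex Set Filter Topology Metric

/-- a function given in parametric form by holomorphic functions is differentiable -/
lemma diff_of_param {hX hO W : ℂ → ℂ} {ζ₀ : ℂ} {κ : ℝ} (hκ : 0 < κ)
    (hXa : AnalyticAt ℂ hX 0) (hOa : AnalyticAt ℂ hO 0) (h0 : hX 0 = ζ₀)
    (hlow : ∀ᶠ u in 𝓝 (0:ℂ), κ * ‖u‖ ≤ ‖hX u - hX 0‖)
    (hW : ∀ᶠ u in 𝓝 (0:ℂ), W (hX u) = hO u) : DifferentiableAt ℂ W ζ₀ := by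
  have hs : HasStrictDerivAt hX (deriv hX 0) 0 := hXa.hasStrictDerivAt
  have hne : deriv hX 0 ≠ 0 := by
    intro hd
    have hd0 : HasDerivAt hX 0 0 := by
      have := hs.hasDerivAt
      rwa [hd] at this
    rw [hasDerivAt_iff_isLittleO] at hd0
    have h1 := hd0.def (half_pos hκ)
    have h2 : ∀ᶠ u in 𝓝 (0:ℂ), ¬ (u ≠ 0) := by
      filter_upwards [h1, hlow] with u hu1 hu2 hu0
      simp only [sub_zero, smul_zero] at hu1
      have h3 : 0 < ‖u‖ := norm_pos_iff.2 hu0
      nlinarith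
    have h4 : (𝓝[≠] (0:ℂ)).NeBot := inferInstance
    have h5 : ∃ᶠ u in 𝓝 (0:ℂ), u ≠ 0 := frequently_iff_neBot.2 h4
    exact h5 h2
  set g := hs.localInverse hX (deriv hX 0) 0 hne with hg
  have hg1 : HasStrictDerivAt g (deriv hX 0)⁻¹ (hX 0) := hs.to_localInverse hne
  have hg0 : g (hX 0) = 0 := HasStrictFDerivAt.localInverse_apply_image _
  have hg2 : ∀ᶠ y in 𝓝 (hX 0), hX (g y) = y := HasStrictFDerivAt.eventually_right_inverse _
  have hgt : Tendsto g (𝓝 (hX 0)) (𝓝 0) := by
    have := hg1.hasDerivAt.continuousAt.tendsto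
    rwa [hg0] at this
  have h6 : ∀ᶠ y in 𝓝 (hX 0), W y = hO (g y) := by
    filter_upwards [hg2, hgt.eventually hW] with y hy1 hy2
    rw [← hy2, hy1]
  rw [← h0]
  have h7 : DifferentiableAt ℂ (fun y => hO (g y)) (hX 0) := by
    refine DifferentiableAt.comp (hX 0) (g := hO) (f := g) ?_ hg1.hasDerivAt.differentiableAt
    rw [hg0]
    exact hOa.differentiableAt
  exact h7.congr_of_eventuallyEq h6

/-- surjectivity onto a ball by open/closed argument -/
lemma ball_subset_image {X : ℝ × ℝ → ℂ} {P : ℝ × ℝ} {A R : ℝ} {ζ : ℂ} (hA : 0 ≤ A) (hR : 0 < R)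
    (hcont : ContinuousOn X (closedBall P A)) (hP : X P = ζ)
    (hin : ∀ z ∈ closedBall P A, X z ∈ ball ζ R → z ∈ ball P A)
    (hop : ∀ z ∈ ball P A, X z ∈ ball ζ R → 𝓝 (X z) ≤ map X (𝓝 z)) :
    ball ζ R ⊆ X '' closedBall P A := by
  have hK : IsCompact (X '' closedBall P A) := (isCompact_closedBall P A).image_of_continuousOn hcont
  have hpre : IsPreconnected (ball ζ R) := (convex_ball ζ R).isPreconnected
  have hopen : IsOpen (ball ζ R ∩ X '' closedBall P A) := by
    rw [isOpen_iff_mem_nhds]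
    rintro y ⟨hy, z, hz, rfl⟩
    have hz' := hin z hz hy
    refine inter_mem (isOpen_ball.mem_nhds hy) ?_
    have h1 := hop z hz' hy
    apply h1
    rw [mem_map]
    filter_upwards [isOpen_ball.mem_nhds hz'] with z' hz'
    exact ⟨z', ball_subset_closedBall hz', rfl⟩
  have hsub : ball ζ R ⊆ ball ζ R ∩ X '' closedBall P A := by
    refine hpre.subset_of_closure_inter_subset hopen ?_ ?_
    · exact ⟨ζ, mem_ball_self hR, mem_ball_self hR, P, mem_closedBall_self hA, hP⟩
    · rintro y ⟨hy1, hy2⟩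
      refine ⟨hy2, ?_⟩
      have : closure (ball ζ R ∩ X '' closedBall P A) ⊆ X '' closedBall P A :=
        closure_minimal inter_subset_right hK.isClosed
      exact this hy1
  exact hsub.trans inter_subset_right

end Pool.Agent.Helper95.FT
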