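import Pool.Agent.Helper76.FT.GoalsG
import Pool.Agent.Helper95.FT.StripA

/-!
# Packet FT-STRIP, part B: the inverse of `XF`
-/

set_option autoImplicit false

namespace Pool.Agent.Helper95.FT

open Pool.Agent.Helper76.FT Complex Set Filter Topology Metric

lemma xf_line (S : Sys) (w : ℂ → ℝ → ℂ) (s t : ℝ) (z : ℝ × ℝ) :
    XF S w s z = XF S w t z + (s - t) * OmF S w z := by
  unfold XF OmF
  split_ifs <;> ring

lemma xf_real (S : Sys) (w : ℂ → ℝ → ℂ) {t : ℝ} (ht : t ∈ Icc (0:ℝ) 1) (x : ℝ) :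
    XF S w t (x, t) = (x : ℂ) := by
  unfold XF
  simp only
  rw [if_neg (not_lt.2 ht.1)]
  split_ifs with h1
  · ring
  · have : t = 1 := le_antisymm ht.2 (not_lt.1 h1)
    subst this
    push_cast
    ring

/-- everything used about `XF` and `OmF` -/
structure Env (S : Sys) (w : ℂ → ℝ → ℂ) (h A R c₀ C₀ a₂ : ℝ) : Prop where
  h0 : 0 < h
  h1 : h ≤ 1
  A0 : 0 < A
  A1 : A < 1 / 2
  R0 : 0 < R
  c00 : 0 < c₀
  C00 : 0 < C₀
  a20 : 0 < a₂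
  hA : A = a₂ * h ^ 3
  small1 : R ≤ c₀ * h * (A / 4)
  small2 : C₀ * R ≤ c₀ * h * (A / 4)
  small3 : R ≤ A / 4
  sgn : ∀ t ∈ Icc (0:ℝ) 1, ∀ z : ℝ × ℝ, -1 < z.2 → z.2 < 2 →
    c₀ * h * |z.2 - t| ≤ |(XF S w t z).im|
  near : ∀ t ∈ Icc (0:ℝ) 1, ∀ z : ℝ × ℝ, -1 < z.2 → z.2 < 2 →
    ‖XF S w t z - z.1‖ ≤ C₀ * |z.2 - t|
  obd : ∀ z : ℝ × ℝ, -1 < z.2 → z.2 < 2 → ‖OmF S w z‖ ≤ C₀
  lip : ∀ t ∈ Icc (0:ℝ) 1, ∀ (x : ℝ) (z z' : ℝ × ℝ), |z.1 - x| ≤ A →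
      |z.2 - t| ≤ A → |z'.1 - x| ≤ A → |z'.2 - t| ≤ A →
      a₂ * h * ‖z - z'‖ ≤ ‖XF S w t z - XF S w t z'‖ ∧
      a₂ * h ^ 2 * ‖OmF S w z - OmF S w z'‖ ≤ ‖z - z'‖
  cont : ∀ t ∈ Icc (0:ℝ) 1, ∀ z : ℝ × ℝ, -1 < z.2 → z.2 < 2 → ContinuousAt (XF S w t) z
  alt : ∀ t ∈ Icc (0:ℝ) 1, ∀ z : ℝ × ℝ, -1 < z.2 → z.2 < 2 →
    (∀ᶠ z' in 𝓝 z, XF S w t z' = XF S w t z) ∨ 𝓝 (XF S w t z) ≤ map (XF S w t) (𝓝 z)

variable {S : Sys} {w : ℂ → ℝ → ℂ} {h A R c₀ C₀ a₂ : ℝ}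

lemma Env.apriori (E : Env S w h A R c₀ C₀ a₂) {t : ℝ} (ht : t ∈ Icc (0:ℝ) 1) {z : ℝ × ℝ}
    (h1 : -1 < z.2) (h2 : z.2 < 2) (him : |(XF S w t z).im| < R) :
    |z.2 - t| < A / 4 ∧ |z.1 - (XF S w t z).re| ≤ A / 4 := by
  have e1 := E.sgn t ht z h1 h2
  have e2 := E.near t ht z h1 h2
  have hch : 0 < c₀ * h := mul_pos E.c00 E.h0
  have e3 : c₀ * h * |z.2 - t| < c₀ * h * (A / 4) := by
    linarith [E.small1]
  have e4 : |z.2 - t| < A / 4 := lt_of_mul_lt_mul_left e3 hch.le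
  refine ⟨e4, ?_⟩
  have e5 : |z.1 - (XF S w t z).re| ≤ ‖XF S w t z - z.1‖ := by
    have := Complex.abs_re_le_norm (XF S w t z - z.1)
    rw [Complex.sub_re, Complex.ofReal_re, abs_sub_comm] at this
    exact this
  have e6 : c₀ * h * (C₀ * |z.2 - t|) ≤ c₀ * h * (A / 4) := by
    calc c₀ * h * (C₀ * |z.2 - t|) = C₀ * (c₀ * h * |z.2 - t|) := by ring
      _ ≤ C₀ * R := by
        apply mul_le_mul_of_nonneg_left _ E.C00.le
        linarith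
      _ ≤ _ := E.small2
  have e7 : C₀ * |z.2 - t| ≤ A / 4 := le_of_mul_le_mul_left e6 hch
  linarith

lemma Env.uniq (E : Env S w h A R c₀ C₀ a₂) {t : ℝ} (ht : t ∈ Icc (0:ℝ) 1) {z z' : ℝ × ℝ}
    (h1 : -1 < z.2) (h2 : z.2 < 2) (h1' : -1 < z'.2) (h2' : z'.2 < 2)
    (him : |(XF S w t z).im| < R) (he : XF S w t z = XF S w t z') : z = z' := by
  have e1 := E.apriori ht h1 h2 him
  have e2 := E.apriori ht h1' h2' (by rw [← he]; exact him)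
  rw [← he] at e2
  have hA := E.A0
  have e3 := (E.lip t ht ((XF S w t z).re) z z' (by linarith [e1.2]) (by linarith [e1.1])
    (by linarith [e2.2]) (by linarith [e2.1])).1
  rw [← he, sub_self, norm_zero] at e3
  have e4 : 0 < a₂ * h := mul_pos E.a20 E.h0
  have e5 : ‖z - z'‖ ≤ 0 := by
    by_contra hc
    push Not at hc
    nlinarith
  exact sub_eq_zero.1 (norm_le_zero_iff.1 e5)

lemma Env.open_map (E : Env S w h A R c₀ C₀ a₂) {t : ℝ} (ht : t ∈ Icc (0:ℝ) 1) {x : ℝ} {z : ℝ × ℝ}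
    (hz : z ∈ ball ((x, t) : ℝ × ℝ) A) : 𝓝 (XF S w t z) ≤ map (XF S w t) (𝓝 z) := by
  have hA := E.A0
  have hA1 := E.A1
  rw [mem_ball, Prod.dist_eq, max_lt_iff, Real.dist_eq, Real.dist_eq] at hz
  have hz1 : |z.1 - x| < A := hz.1
  have hz2 : |z.2 - t| < A := hz.2
  have h2 := abs_lt.1 hz2
  have h3 : -1 < z.2 := by linarith [ht.1, h2.1]
  have h4 : z.2 < 2 := by linarith [ht.2, h2.2]
  rcases E.alt t ht z h3 h4 with h5 | h5
  · exfalso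
    -- a nearby point `z + (ε, 0)` in the box has a different image
    have h6 : Tendsto (fun ε : ℝ => ((z.1 + ε, z.2) : ℝ × ℝ)) (𝓝[≠] 0) (𝓝 z) := by
      have : Tendsto (fun ε : ℝ => ((z.1 + ε, z.2) : ℝ × ℝ)) (𝓝 0) (𝓝 (z.1 + 0, z.2)) := by
        apply Continuous.tendsto
        fun_prop
      rw [add_zero] at this
      exact this.mono_left nhdsWithin_le_nhds
    have h7 : ∀ᶠ ε : ℝ in 𝓝[≠] 0, |z.1 + ε - x| < A := by
      have : Tendsto (fun ε : ℝ => |z.1 + ε - x|) (𝓝[≠] 0) (𝓝 |z.1 + 0 - x|) := by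
        refine Tendsto.mono_left (Continuous.tendsto ?_ 0) nhdsWithin_le_nhds
        fun_prop
      rw [add_zero] at this
      exact this.eventually (gt_mem_nhds hz1)
    have h8 : ∀ᶠ ε : ℝ in 𝓝[≠] 0, ε ≠ 0 := self_mem_nhdsWithin
    obtain ⟨ε, e1, e2, e3⟩ := ((h6.eventually h5).and (h7.and h8)).exists
    have e4 := (E.lip t ht x (z.1 + ε, z.2) z e2.le hz2.le hz1.le hz2.le).1
    rw [e1, sub_self, norm_zero] at e4
    have e5 : 0 < a₂ * h := mul_pos E.a20 E.h0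
    have e6 : ‖((z.1 + ε, z.2) : ℝ × ℝ) - z‖ ≤ 0 := by
      by_contra hc
      push Not at hc
      nlinarith
    have e7 := sub_eq_zero.1 (norm_le_zero_iff.1 e6)
    have e8 : z.1 + ε = z.1 := congrArg Prod.fst e7
    exact e3 (by linarith)
  · exact h5

lemma Env.exists_pt (E : Env S w h A R c₀ C₀ a₂) {t : ℝ} (ht : t ∈ Icc (0:ℝ) 1) {ζ : ℂ}
    (hζ : |ζ.im| < R) : ∃ z : ℝ × ℝ, -1 < z.2 ∧ z.2 < 2 ∧ XF S w t z = ζ := by
  have hA := E.A0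
  have hA1 := E.A1
  have hrange : ∀ z ∈ closedBall ((ζ.re, t) : ℝ × ℝ) A, -1 < z.2 ∧ z.2 < 2 := by
    intro z hz
    rw [mem_closedBall, Prod.dist_eq, max_le_iff, Real.dist_eq, Real.dist_eq] at hz
    have hz2 : |z.2 - t| ≤ A := hz.2
    have h2 := abs_le.1 hz2
    exact ⟨by linarith [ht.1, h2.1], by linarith [ht.2, h2.2]⟩
  have h1 : ball ((ζ.re : ℝ) : ℂ) R ⊆ XF S w t '' closedBall ((ζ.re, t) : ℝ × ℝ) A := by
    refine ball_subset_image hA.le E.R0 ?_ (xf_real S w ht _) ?_ ?_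
    · intro z hz
      exact (E.cont t ht z (hrange z hz).1 (hrange z hz).2).continuousWithinAt
    · intro z hz hb
      rw [mem_ball, dist_eq_norm] at hb
      have b1 : |(XF S w t z).im| < R := by
        have := Complex.abs_im_le_norm (XF S w t z - ((ζ.re : ℝ) : ℂ))
        simp only [Complex.sub_im, Complex.ofReal_im, sub_zero] at this
        linarith
      have b2 : |(XF S w t z).re - ζ.re| < R := by
        have := Complex.abs_re_le_norm (XF S w t z - ((ζ.re : ℝ) : ℂ))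
        simp only [Complex.sub_re, Complex.ofReal_re] at this
        linarith
      have b3 := E.apriori ht (hrange z hz).1 (hrange z hz).2 b1
      have b4 := E.small3
      rw [mem_ball, Prod.dist_eq, max_lt_iff, Real.dist_eq, Real.dist_eq]
      refine ⟨?_, ?_⟩
      · change |z.1 - ζ.re| < A
        have : |z.1 - ζ.re| ≤ |z.1 - (XF S w t z).re| + |(XF S w t z).re - ζ.re| :=
          abs_sub_le _ _ _
        linarith [b3.2]
      · change |z.2 - t| < A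
        linarith [b3.1]
    · intro z hz _
      exact E.open_map ht hz
  have h2 : ζ ∈ ball ((ζ.re : ℝ) : ℂ) R := by
    rw [mem_ball, dist_eq_norm]
    have : ζ - ((ζ.re : ℝ) : ℂ) = (ζ.im : ℂ) * I := by
      apply Complex.ext <;> simp
    rw [this, norm_mul, Complex.norm_I, mul_one, Complex.norm_real, Real.norm_eq_abs]
    exact hζ
  obtain ⟨z, hz, he⟩ := h1 h2
  exact ⟨z, (hrange z hz).1, (hrange z hz).2, he⟩

open Classical in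
/-- the inverse of `XF` -/
noncomputable def zs (S : Sys) (w : ℂ → ℝ → ℂ) (ζ : ℂ) (t : ℝ) : ℝ × ℝ :=
  if H : ∃ z : ℝ × ℝ, -1 < z.2 ∧ z.2 < 2 ∧ XF S w t z = ζ then H.choose else 0

/-- the extension of the torus -/
noncomputable def Wn (S : Sys) (w : ℂ → ℝ → ℂ) (ζ : ℂ) (t : ℝ) : ℂ := OmF S w (zs S w ζ t)

lemma Env.zs_spec (E : Env S w h A R c₀ C₀ a₂) {t : ℝ} (ht : t ∈ Icc (0:ℝ) 1) {ζ : ℂ}
    (hζ : |ζ.im| < R) : -1 < (zs S w ζ t).2 ∧ (zs S w ζ t).2 < 2 ∧ XF S w t (zs S w ζ t) = ζ := by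
  have H := E.exists_pt ht hζ
  unfold zs
  rw [dif_pos H]
  exact H.choose_spec

lemma Env.zs_eq (E : Env S w h A R c₀ C₀ a₂) {t : ℝ} (ht : t ∈ Icc (0:ℝ) 1) {z : ℝ × ℝ}
    (h1 : -1 < z.2) (h2 : z.2 < 2) {ζ : ℂ} (hζ : |ζ.im| < R) (he : XF S w t z = ζ) :
    zs S w ζ t = z := by
  have H := E.zs_spec ht hζ
  exact E.uniq ht H.1 H.2.1 h1 h2 (by rw [H.2.2]; exact hζ) (by rw [H.2.2, he])

lemma Env.zs_near (E : Env S w h A R c₀ C₀ a₂) {t : ℝ} (ht : t ∈ Icc (0:ℝ) 1) {ζ : ℂ}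
    (hζ : |ζ.im| < R) : |(zs S w ζ t).2 - t| < A / 4 ∧ |(zs S w ζ t).1 - ζ.re| ≤ A / 4 := by
  have H := E.zs_spec ht hζ
  have := E.apriori ht H.1 H.2.1 (by rw [H.2.2]; exact hζ)
  rw [H.2.2] at this
  exact this

lemma Env.Wn_eq (E : Env S w h A R c₀ C₀ a₂) {t : ℝ} (ht : t ∈ Icc (0:ℝ) 1) {z : ℝ × ℝ}
    (h1 : -1 < z.2) (h2 : z.2 < 2) {ζ : ℂ} (hζ : |ζ.im| < R) (he : XF S w t z = ζ) :
    Wn S w ζ t = OmF S w z := by
  unfold Wn
  rw [E.zs_eq ht h1 h2 hζ he]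

lemma Env.Wn_lip (E : Env S w h A R c₀ C₀ a₂) {t t' : ℝ} (ht : t ∈ Icc (0:ℝ) 1)
    (ht' : t' ∈ Icc (0:ℝ) 1) {ζ ζ' : ℂ} (hζ : |ζ.im| < R) (hζ' : |ζ'.im| < R)
    (hre : |ζ'.re - ζ.re| ≤ A / 2) (htt : |t' - t| ≤ A / 2) :
    a₂ ^ 2 * h ^ 3 * ‖Wn S w ζ t - Wn S w ζ' t'‖ ≤ ‖ζ - ζ'‖ + C₀ * |t - t'| := by
  have hA := E.A0
  set z := zs S w ζ t with hz
  set z' := zs S w ζ' t' with hz'
  have H := E.zs_spec ht hζ
  have H' := E.zs_spec ht' hζ'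
  have n := E.zs_near ht hζ
  have n' := E.zs_near ht' hζ'
  rw [← hz] at H n
  rw [← hz'] at H' n'
  have q1 : |z'.1 - ζ.re| ≤ A := by
    have := abs_sub_le z'.1 ζ'.re ζ.re
    linarith [n'.2]
  have q2 : |z'.2 - t| ≤ A := by
    have := abs_sub_le z'.2 t' t
    linarith [n'.1]
  have L := E.lip t ht ζ.re z z' (by linarith [n.2]) (by linarith [n.1]) q1 q2
  have e1 : XF S w t z - XF S w t z' = (ζ - ζ') - (t - t') * OmF S w z' := by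
    rw [H.2.2, xf_line S w t t' z', H'.2.2]
    ring
  have e2 : ‖XF S w t z - XF S w t z'‖ ≤ ‖ζ - ζ'‖ + C₀ * |t - t'| := by
    rw [e1]
    refine (norm_sub_le _ _).trans ?_
    rw [norm_mul]
    have : ‖((t:ℂ) - (t':ℂ))‖ = |t - t'| := by
      rw [← Complex.ofReal_sub, Complex.norm_real, Real.norm_eq_abs]
    rw [this]
    have o := E.obd z' H'.1 H'.2.1
    have : |t - t'| * ‖OmF S w z'‖ ≤ C₀ * |t - t'| := by
      rw [mul_comm]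
      exact mul_le_mul_of_nonneg_right o (abs_nonneg _)
    linarith
  have e3 : Wn S w ζ t = OmF S w z := rfl
  have e4 : Wn S w ζ' t' = OmF S w z' := rfl
  rw [e3, e4]
  calc a₂ ^ 2 * h ^ 3 * ‖OmF S w z - OmF S w z'‖
      = (a₂ * h) * (a₂ * h ^ 2 * ‖OmF S w z - OmF S w z'‖) := by ring
    _ ≤ (a₂ * h) * ‖z - z'‖ := mul_le_mul_of_nonneg_left L.2 (mul_pos E.a20 E.h0).le
    _ ≤ ‖XF S w t z - XF S w t z'‖ := L.1
    _ ≤ _ := e2

end Pool.Agent.Helper95.FT
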